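import Mathlib
import Pool.Agent.Helper669.Forcing

/-!
# Avoiding middles, in the forcing language

The sentences of the forcing language are the ones of `Pool.Agent.Helper669.Forcing`: a sentence is
the set of the conditions forcing it.
-/

namespace Pool.Agent.Y575.MA

open Cardinal Pool.Agent.Helper669.Forcing

universe u v w

section

variable {P : Type u} [Preorder P]

/-- `φ or ψ` -/
def forr (φ ψ : Set P) : Set P := fnot (fand (fnot φ) (fnot ψ))

/-- `x ≤* y`: for all but finitely many `n` the value of `x` at `n` is at most the value of `y`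
at `n`. -/
def LeStar (x y : ℕ → ℕ → Set P) : Set P :=
  fex fun N : ℕ => fall fun n : ℕ => fall fun _ : N ≤ n => fall fun a : ℕ => fall fun b : ℕ =>
    fimp (fand (meets (x n a)) (meets (y n b))) (fground (a ≤ b))

/-- The set of all `n` with `f n < g n ≤ h n` is finite. -/
def FinMid (f g h : ℕ → ℕ → Set P) : Set P :=
  fex fun N : ℕ => fall fun n : ℕ => fall fun _ : N ≤ n => fall fun a : ℕ => fall fun b : ℕ =>
    fall fun c : ℕ => fimp (fand (meets (f n a)) (fand (meets (g n b)) (meets (h n c))))
      (fground ¬ (a < b ∧ b ≤ c))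

/-- The function `g` avoids middles in the set of all functions `E z`: it is not `≤*` any of them,
and for any two of them, `f` and `h`, at least one of the sets `{n | f n < g n ≤ h n}` and
`{n | h n < g n ≤ f n}` is finite. -/
def AvoidsMiddles {Z : Type w} (g : ℕ → ℕ → Set P) (E : Z → ℕ → ℕ → Set P) : Set P :=
  fand (fall fun z => fnot (LeStar g (E z)))
    (fall fun z => fall fun z' => forr (FinMid (E z) g (E z')) (FinMid (E z') g (E z)))

/-- In the extension, `add(𝔛, 𝔇)` is at most the cardinality of `Y`: there are sets indexed by `Y`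
(the set with index `y` consists of the functions `E y z`), in each of which some function avoids
middles, such that the union of these sets is dominating. -/
def AddXDLe (P : Type u) [Preorder P] (Y : Type v) : Set P :=
  fex fun Z : Type v => fex fun E : Y → Z → ℕ → ℕ → Set P =>
    fand (fall fun y => fall fun z => IsFun (E y z))
      (fand
        (fall fun x : ℕ → ℕ → Set P =>
          fimp (IsFun x) (fex fun y => fex fun z => LeStar x (E y z)))
        (fall fun y => fex fun g : ℕ → ℕ → Set P => fand (IsFun g) (AvoidsMiddles g (E y))))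

theorem down_LeStar (x y : ℕ → ℕ → Set P) : Down (LeStar x y) := down_fex _

theorem down_FinMid (f g h : ℕ → ℕ → Set P) : Down (FinMid f g h) := down_fex _

theorem forr_left {φ ψ : Set P} (hd : Down φ) {p : P} (h : p ∈ φ) : p ∈ forr φ ψ := by
  intro q hq hq'
  exact hq'.1 q le_rfl (hd p h q hq)

theorem forr_right {φ ψ : Set P} (hd : Down ψ) {p : P} (h : p ∈ ψ) : p ∈ forr φ ψ := by
  intro q hq hq'
  exact hq'.2 q le_rfl (hd p h q hq)

theorem down_AvoidsMiddles {Z : Type w} (g : ℕ → ℕ → Set P) (E : Z → ℕ → ℕ → Set P) :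
    Down (AvoidsMiddles g E) :=
  down_fand (down_fall fun _ => down_fnot _) (down_fall fun _ => down_fall fun _ => down_fnot _)

/-- If `f ≤* h` for functions `f` and `h`, then the set of `n` with `h n < g n ≤ f n` is
finite. -/
theorem finMid_of_leStar {f g h : ℕ → ℕ → Set P} {p : P}
    (hle : p ∈ LeStar f h) : p ∈ FinMid h g f := by
  refine mem_fex.2 fun q hq => ?_
  obtain ⟨r, hr, N, hN⟩ := mem_fex.1 hle q hq
  refine ⟨r, hr, N, fun n hn a b c => mem_fimp.2 fun s hs h' => ?_⟩
  obtain ⟨t, ht, h1⟩ := mem_fimp.1 (hN n hn c a) s hs ⟨h'.2.2, h'.1⟩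
  refine ⟨t, ht, ?_⟩
  have h2 : c ≤ a := h1
  show ¬ (a < b ∧ b ≤ c)
  rintro ⟨h3, h4⟩
  omega

end

end Pool.Agent.Y575.MA
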