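import Mathlib
import Pool.Agent.Helper669.Iter

/-!
# Hechler forcing along a partial order, semantically

The iteration runs along a well-ordered set `I`. A relation `Q` on `I` says which coordinates may
be used in the promises made at a coordinate: the promises at `ξ` are (countable) names for bounds
of the next value which only depend on the coordinates `η` with `Q η ξ`.
-/

namespace Pool.Agent.Y575.MA

open Cardinal Pool.Agent.Helper669.Iter

set_option linter.unusedSectionVars false

universe u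

variable {I : Type u} [LinearOrder I] [WellFoundedLT I]

/-- countable unions of basic sets with supports inside `D` -/
def COpen (B : Set (Rep I)) (D : Set I) (ξ : I) (U : Set (Om I)) : Prop :=
  ∃ A ⊆ B, A.Countable ∧ (∀ q ∈ A, supp q ⊆ D) ∧ U = ⋃ q ∈ A, bs q ξ

/-- promises saying that the new function is at least a named number -/
def HStep (B : Set (Rep I)) (D : Set I) (ξ : I) : Set (Pr I) :=
  {R | (∀ n m, COpen B D ξ (R n m)) ∧
    ∀ n, ∀ q ∈ B, ∃ q' ∈ B, q' ≤ q ∧ ∃ m₀, ∀ m, m₀ ≤ m → bs q' ξ ⊆ R n m}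

/-- the admissible promises, by recursion -/
noncomputable def HR (Q : I → I → Prop) : I → Set (Pr I) :=
  WellFoundedLT.fix (motive := fun _ : I => Set (Pr I)) fun ξ f =>
    HStep {r | (∀ η, ∀ h : η < ξ, ∀ R ∈ r.pr η, R ∈ f η h) ∧ Below r ξ} {η | Q η ξ} ξ

variable {Q : I → I → Prop}

theorem HR_eq (ξ : I) : HR Q ξ = HStep (Vd (HR Q) ξ) {η | Q η ξ} ξ := by
  rw [HR, WellFoundedLT.fix_eq]
  congr 1
  ext r
  constructor
  · rintro ⟨h1, h2⟩
    refine ⟨fun η R hR => ?_, h2⟩
    by_cases hη : η < ξ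
    · exact h1 η hη R hR
    · rw [(h2 η (not_lt.1 hη)).2] at hR
      exact absurd hR (Finset.notMem_empty R)
  · rintro ⟨h1, h2⟩
    exact ⟨fun η _ R hR => h1 η R hR, h2⟩

theorem finset_amal (ξ : I) (F : Finset (Pr I)) : (∀ R ∈ F, R ∈ HR Q ξ) → ∀ n,
    ∀ q ∈ Vd (HR Q) ξ,
    ∃ q' ∈ Vd (HR Q) ξ, q' ≤ q ∧ ∃ m₀ : ℕ, ∀ m, m₀ ≤ m → ∀ R ∈ F, bs q' ξ ⊆ R n m := by
  classical
  induction F using Finset.induction_on with
  | empty => intro _ n q hq; exact ⟨q, hq, le_rfl, 0, by simp⟩
  | insert R F _ ih =>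
    intro h n q hq
    obtain ⟨q', hq', hle, D, hD⟩ := ih (fun R hR => h R (Finset.mem_insert_of_mem hR)) n q hq
    have hR := h R (Finset.mem_insert_self R F)
    rw [HR_eq] at hR
    obtain ⟨q'', hq'', hle', m₀, hm₀⟩ := hR.2 n q' hq'
    refine ⟨q'', hq'', hle'.trans hle, max m₀ D, fun m hm R' hR' => ?_⟩
    rcases Finset.mem_insert.1 hR' with rfl | hR'
    · exact hm₀ m ((le_max_left _ _).trans hm)
    · exact (bs_le hle' ξ).trans (hD m ((le_max_right _ _).trans hm) R' hR')

theorem good (ξ : I) : Good (HR Q) ξ where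
  opn R hR n m w hw := by
    rw [HR_eq] at hR
    obtain ⟨A, hA, _, _, hU⟩ := hR.1 n m
    rw [hU] at hw ⊢
    simp only [Set.mem_iUnion] at hw
    obtain ⟨q, hq, hwq⟩ := hw
    exact ⟨q, hA hq, hwq, Set.subset_biUnion_of_mem (u := fun q => bs q ξ) hq⟩
  amal F hF n q hq := by
    obtain ⟨q', hq', hle, m₀, hm₀⟩ := finset_amal ξ F hF n q hq
    exact ⟨q', hq', hle, m₀, hm₀ m₀ le_rfl⟩

/-! ## Conditions with support inside a set closed downwards -/

theorem exists_listD {RR : I → Set (Pr I)} {D : Set I} {ξ : I} {w : Om I}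
    (ih : ∀ r r' : Rep I, Adm RR r → Adm RR r' → supp r ⊆ D → supp r' ⊆ D →
      w ∈ bs r ξ → w ∈ bs r' ξ →
      ∃ q ∈ Vd RR ξ, supp q ⊆ D ∧ q ≤ res r ξ ∧ q ≤ res r' ξ ∧ w ∈ bs q ξ)
    (S : Set (Rep I)) (hS : S.Finite) : (∀ q ∈ S, q ∈ Vd RR ξ ∧ supp q ⊆ D ∧ w ∈ bs q ξ) →
    ∃ q ∈ Vd RR ξ, supp q ⊆ D ∧ w ∈ bs q ξ ∧ ∀ q' ∈ S, q ≤ q' := by
  induction S, hS using Set.Finite.induction_on with
  | empty =>
    intro _
    refine ⟨one I, one_mem RR ξ, ?_, fun η _ => by simp [one], by simp⟩
    intro η hη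
    simp [supp, one] at hη
  | @insert a S _ _ ih' =>
    intro h
    obtain ⟨q, hq, hqD, hw, hle⟩ := ih' fun q hq => h q (Set.mem_insert_of_mem a hq)
    obtain ⟨ha, haD, haw⟩ := h a (Set.mem_insert a S)
    obtain ⟨q', hq', hD', h1, h2, h3⟩ := ih q a hq.1 ha.1 hqD haD hw haw
    rw [res_eq_self hq.2] at h1
    rw [res_eq_self ha.2] at h2
    refine ⟨q', hq', hD', h3, fun b hb => ?_⟩
    rcases Set.mem_insert_iff.1 hb with rfl | hb
    · exact h2
    · exact h1.trans (hle b hb)

theorem supp_res_subset {r : Rep I} {D : Set I} (h : supp r ⊆ D) (ξ : I) : supp (res r ξ) ⊆ D := by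
  intro η hη
  apply h
  by_cases h' : η < ξ
  · rcases hη with h1 | h1
    · left; rwa [res_st_lt h'] at h1
    · right; rwa [res_pr_lt h'] at h1
  · rcases hη with h1 | h1
    · exact absurd (res_st_ge (not_lt.1 h')) h1
    · exact absurd (res_pr_ge (not_lt.1 h')) h1

theorem inter_pointD {RR : I → Set (Pr I)} {D : Set I}
    (hG : ∀ ξ ∈ D, ∀ R ∈ RR ξ, ∀ n m, ∀ w ∈ R n m,
      ∃ q ∈ Vd RR ξ, supp q ⊆ D ∧ w ∈ bs q ξ ∧ bs q ξ ⊆ R n m) (w : Om I) (ξ : I) :
    ∀ r r' : Rep I, Adm RR r → Adm RR r' → supp r ⊆ D → supp r' ⊆ D → w ∈ bs r ξ → w ∈ bs r' ξ →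
      ∃ q ∈ Vd RR ξ, supp q ⊆ D ∧ q ≤ res r ξ ∧ q ≤ res r' ξ ∧ w ∈ bs q ξ := by
  classical
  induction ξ using WellFoundedLT.induction with
  | ind ξ IH =>
    intro r r' hr hr' hrD hrD' hw hw'
    by_cases hS : ∃ η ∈ supp r ∪ supp r', η < ξ
    swap
    · refine ⟨one I, one_mem RR ξ, ?_, ?_, ?_, fun η _ => by simp [one]⟩
      · intro η hη
        simp [supp, one] at hη
      · have : res r ξ = one I := by
          ext1 <;> funext η
          · by_cases hη : η < ξ
            · rw [res_st_lt hη]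
              exact (notMem_supp fun h => hS ⟨η, Or.inl h, hη⟩).1
            · rw [res_st_ge (not_lt.1 hη)]; rfl
          · by_cases hη : η < ξ
            · rw [res_pr_lt hη]
              exact (notMem_supp fun h => hS ⟨η, Or.inl h, hη⟩).2
            · rw [res_pr_ge (not_lt.1 hη)]; rfl
        rw [this]
      · have : res r' ξ = one I := by
          ext1 <;> funext η
          · by_cases hη : η < ξ
            · rw [res_st_lt hη]
              exact (notMem_supp fun h => hS ⟨η, Or.inr h, hη⟩).1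
            · rw [res_st_ge (not_lt.1 hη)]; rfl
          · by_cases hη : η < ξ
            · rw [res_pr_lt hη]
              exact (notMem_supp fun h => hS ⟨η, Or.inr h, hη⟩).2
            · rw [res_pr_ge (not_lt.1 hη)]; rfl
        rw [this]
    · obtain ⟨η, hηmem, hη, hmax⟩ := exists_max_lt (r.fin.union r'.fin) ξ hS
      have hηD : η ∈ D := by
        rcases hηmem with h | h
        · exact hrD h
        · exact hrD' h
      set N := max (r.st η).length (r'.st η).length with hN
      set t : List ℕ := (List.range N).map (w η) with ht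
      have htl : t.length = N := by simp [ht]
      have htg : ∀ i < N, t.getD i 0 = w η i := by
        intro i hi
        rw [ht, List.getD_eq_getElem _ _ (by simpa using hi)]
        simp
      -- the auxiliary conditions
      have key : ∀ (R : Pr I) (i : ℕ), (R ∈ r.pr η ∪ r'.pr η) →
          ∃ q ∈ Vd RR η, supp q ⊆ D ∧
            (w ∈ R i (w η i) → w ∈ bs q η ∧ bs q η ⊆ R i (w η i)) := by
        intro R i hR
        by_cases hwR : w ∈ R i (w η i)
        · have hRR : R ∈ RR η := by
            rcases Finset.mem_union.1 hR with h | h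
            · exact hr η R h
            · exact hr' η R h
          obtain ⟨q, hq, h0, h1, h2⟩ := hG η hηD R hRR i (w η i) w hwR
          exact ⟨q, hq, h0, fun _ => ⟨h1, h2⟩⟩
        · refine ⟨one I, one_mem RR η, ?_, fun h => absurd h hwR⟩
          intro η hη
          simp [supp, one] at hη
      choose! qf hqf1 hqf0 hqf2 using key
      set S : Set (Rep I) := {res r η, res r' η} ∪
        (fun x : Pr I × ℕ => qf x.1 x.2) '' {x | x.1 ∈ r.pr η ∪ r'.pr η ∧ x.2 < N ∧
          w ∈ x.1 x.2 (w η x.2)} with hSdef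
      have hSfin : S.Finite := by
        refine Set.Finite.union (by simp) (Set.Finite.image _ ?_)
        refine (((r.pr η ∪ r'.pr η).finite_toSet).prod (Set.finite_lt_nat N)).subset ?_
        rintro ⟨R, i⟩ ⟨h1, h2, _⟩
        exact ⟨h1, h2⟩
      obtain ⟨q, hq, hqD, hwq, hle⟩ := exists_listD (RR := RR) (D := D) (ξ := η) (w := w)
        (fun a b ha hb haD hbD h1 h2 => IH η hη a b ha hb haD hbD h1 h2) S hSfin (by
          rintro a ((rfl | rfl) | ⟨⟨R, i⟩, ⟨h1, h2, h3⟩, rfl⟩)
          · exact ⟨res_mem hr η, supp_res_subset hrD η,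
              by rw [bs_res le_rfl]; exact bs_anti r hη.le hw⟩
          · exact ⟨res_mem hr' η, supp_res_subset hrD' η,
              by rw [bs_res le_rfl]; exact bs_anti r' hη.le hw'⟩
          · exact ⟨hqf1 R i h1, hqf0 R i h1, (hqf2 R i h1 h3).1⟩)
      have hq1 : q ≤ res r η := hle _ (Or.inl (Or.inl rfl))
      have hq2 : q ≤ res r' η := hle _ (Or.inl (Or.inr rfl))
      let z : Rep I :=
        { st := fun ζ => if ζ < η then q.st ζ else if ζ = η then t else []
          pr := fun ζ => if ζ < η then q.pr ζ else if ζ = η then r.pr η ∪ r'.pr η else ∅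
          fin := by
            refine (q.fin.union (Set.finite_singleton η)).subset fun ζ hζ => ?_
            by_cases h1 : ζ < η
            · left; simpa [h1] using hζ
            · by_cases h2 : ζ = η
              · right; exact h2
              · simp [h1, h2] at hζ }
      have hz1 : ∀ {ζ}, ζ < η → z.st ζ = q.st ζ := fun h => if_pos h
      have hz2 : ∀ {ζ}, ζ < η → z.pr ζ = q.pr ζ := fun h => if_pos h
      have hz3 : z.st η = t := by simp [z]
      have hz4 : z.pr η = r.pr η ∪ r'.pr η := by simp [z]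
      have hz5 : ∀ {ζ}, η < ζ → z.st ζ = [] := fun h => by simp [z, h.not_gt, h.ne']
      have hz6 : ∀ {ζ}, η < ζ → z.pr ζ = ∅ := fun h => by simp [z, h.not_gt, h.ne']
      have hbz : bs z η = bs q η := bs_congr fun ζ hζ => ⟨hz1 hζ, hz2 hζ⟩
      have hgen : ∀ a : Rep I, (∀ R ∈ a.pr η, R ∈ r.pr η ∪ r'.pr η) → (a.st η).length ≤ N →
          w ∈ bs a ξ → q ≤ res a η → (∀ ζ, η < ζ → ζ < ξ → ζ ∉ supp a) → z ≤ res a ξ := by
        intro a ha1 ha2 ha3 ha4 ha5 ζ
        rcases lt_trichotomy ζ η with h | rfl | h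
        · rw [res_st_lt (h.trans hη), res_pr_lt (h.trans hη), hz1 h, hz2 h]
          have := ha4 ζ
          rw [res_st_lt h, res_pr_lt h] at this
          rwa [bs_congr (r := z) (r' := q) fun ζ' hζ' => ⟨hz1 (hζ'.trans h), hz2 (hζ'.trans h)⟩]
        · rw [res_st_lt hη, res_pr_lt hη, hz3, hz4, hbz]
          refine ⟨?_, ha1, fun R hR i hi hi' => ?_⟩
          · rw [List.prefix_iff_eq_take]
            apply List.ext_getElem
            · simp [htl, ha2]
            · intro i h1 h2
              have h3 := (ha3 ζ hη).1 i h1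
              rw [List.getD_eq_getElem _ _ h1] at h3
              rw [← h3, List.getElem_take]
              simp [ht]
          · rw [htl] at hi'
            rw [htg i hi']
            have h1 : w ∈ R i (w ζ i) := (ha3 ζ hη).2 R hR i hi
            have h2 : q ≤ qf R i := hle _ (Or.inr ⟨⟨R, i⟩, ⟨ha1 R hR, hi', h1⟩, rfl⟩)
            exact (bs_le h2 ζ).trans (hqf2 R i (ha1 R hR) h1).2
        · rw [hz5 h, hz6 h]
          by_cases h' : ζ < ξ
          · obtain ⟨h1, h2⟩ := notMem_supp (ha5 ζ h h')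
            rw [res_st_lt h', res_pr_lt h', h1, h2]
            exact ⟨List.prefix_refl _, Finset.Subset.refl _,
              fun R hR => absurd hR (Finset.notMem_empty R)⟩
          · rw [res_st_ge (not_lt.1 h'), res_pr_ge (not_lt.1 h')]
            exact ⟨List.prefix_refl _, Finset.Subset.refl _,
              fun R hR => absurd hR (Finset.notMem_empty R)⟩
      refine ⟨z, ⟨fun ζ R hR => ?_, fun ζ hζ => ⟨hz5 (hη.trans_le hζ), hz6 (hη.trans_le hζ)⟩⟩,
        ?_, ?_, ?_, ?_⟩
      · rcases lt_trichotomy ζ η with h | rfl | h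
        · rw [hz2 h] at hR; exact hq.1 ζ R hR
        · rw [hz4] at hR
          rcases Finset.mem_union.1 hR with h | h
          · exact hr _ R h
          · exact hr' _ R h
        · rw [hz6 h] at hR; exact absurd hR (Finset.notMem_empty R)
      · intro ζ hζ
        rcases lt_trichotomy ζ η with h | rfl | h
        · apply hqD
          rcases hζ with h1 | h1
          · left; rwa [hz1 h] at h1
          · right; rwa [hz2 h] at h1
        · exact hηD
        · rcases hζ with h1 | h1
          · exact absurd (hz5 h) h1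
          · exact absurd (hz6 h) h1
      · exact hgen r (fun R hR => Finset.mem_union_left _ hR) (le_max_left _ _) hw hq1
          fun ζ h1 h2 h3 => absurd (hmax ζ (Or.inl h3) h2) (not_le.2 h1)
      · exact hgen r' (fun R hR => Finset.mem_union_right _ hR) (le_max_right _ _) hw' hq2
          fun ζ h1 h2 h3 => absurd (hmax ζ (Or.inr h3) h2) (not_le.2 h1)
      · intro ζ hζ
        rcases lt_trichotomy ζ η with h | rfl | h
        · rw [hz1 h, hz2 h]; exact hwq ζ h
        · rw [hz3, hz4, htl]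
          refine ⟨fun i hi => (htg i hi).symm, fun R hR n hn => ?_⟩
          rcases Finset.mem_union.1 hR with h | h
          · exact (hw ζ hζ).2 R h n ((le_max_left _ _).trans hn)
          · exact (hw' ζ hζ).2 R h n ((le_max_right _ _).trans hn)
        · rw [hz5 h, hz6 h]; simp

open Classical in
/-- the part of `r` at the coordinates in `D` -/
noncomputable def rstr (r : Rep I) (D : Set I) : Rep I where
  st η := if η ∈ D then r.st η else []
  pr η := if η ∈ D then r.pr η else ∅
  fin := by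
    refine r.fin.subset fun η hη => ?_
    by_cases h : η ∈ D
    · simpa [h] using hη
    · simp [h] at hη

omit [LinearOrder I] [WellFoundedLT I] in
theorem rstr_st {r : Rep I} {D : Set I} {η : I} (h : η ∈ D) : (rstr r D).st η = r.st η := if_pos h

omit [LinearOrder I] [WellFoundedLT I] in
theorem rstr_pr {r : Rep I} {D : Set I} {η : I} (h : η ∈ D) : (rstr r D).pr η = r.pr η := if_pos h

omit [LinearOrder I] [WellFoundedLT I] in
theorem rstr_st' {r : Rep I} {D : Set I} {η : I} (h : η ∉ D) : (rstr r D).st η = [] := if_neg h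

omit [LinearOrder I] [WellFoundedLT I] in
theorem rstr_pr' {r : Rep I} {D : Set I} {η : I} (h : η ∉ D) : (rstr r D).pr η = ∅ := if_neg h

theorem le_rstr (r : Rep I) (D : Set I) : r ≤ rstr r D := fun η => by
  by_cases h : η ∈ D
  · rw [rstr_st h, rstr_pr h]
    exact le_refl r η
  · rw [rstr_st' h, rstr_pr' h]
    exact ⟨List.nil_prefix, Finset.empty_subset _, fun R hR => absurd hR (Finset.notMem_empty R)⟩

theorem rstr_mem {RR : I → Set (Pr I)} {τ : I} {r : Rep I} (hr : r ∈ Vd RR τ) (D : Set I) :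
    rstr r D ∈ Vd RR τ := by
  refine ⟨fun η R hR => ?_, fun η hη => ?_⟩
  · by_cases h : η ∈ D
    · rw [rstr_pr h] at hR
      exact hr.1 η R hR
    · rw [rstr_pr' h] at hR
      exact absurd hR (Finset.notMem_empty R)
  · by_cases h : η ∈ D
    · rw [rstr_st h, rstr_pr h]
      exact hr.2 η hη
    · exact ⟨rstr_st' h, rstr_pr' h⟩

theorem supp_rstr (r : Rep I) (D : Set I) : supp (rstr r D) ⊆ D := by
  intro η hη
  by_contra h
  rcases hη with h1 | h1
  · exact h1 (rstr_st' h)
  · exact h1 (rstr_pr' h)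

open Classical in
/-- `b` at the coordinates in `D` and `p` at the others -/
noncomputable def glD (b p : Rep I) (D : Set I) : Rep I where
  st η := if η ∈ D then b.st η else p.st η
  pr η := if η ∈ D then b.pr η else p.pr η
  fin := by
    refine (b.fin.union p.fin).subset fun η hη => ?_
    by_cases h : η ∈ D
    · left; simpa [h] using hη
    · right; simpa [h] using hη

/-- A condition `p` compatible with a condition `a` whose support is inside a set `D` of
coordinates closed under `Q`-predecessors can be extended to an extension of `a` without changing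
its stems outside `D`. -/
theorem amalD {D : Set I} (hD : ∀ ξ ∈ D, ∀ η, Q η ξ → η ∈ D) {a p r : Rep I} {τ : I}
    (ha : a ∈ Vd (HR Q) τ) (haD : supp a ⊆ D) (hp : p ∈ Vd (HR Q) τ) (hr : r ∈ Vd (HR Q) τ)
    (hra : r ≤ a) (hrp : r ≤ p) :
    ∃ s ∈ Vd (HR Q) τ, s ≤ a ∧ s ≤ p ∧ ∀ ζ, ζ ∉ D → s.st ζ = p.st ζ := by
  classical
  obtain ⟨w, hw⟩ := bs_nonempty good hr
  have hG : ∀ ξ ∈ D, ∀ R ∈ HR Q ξ, ∀ n m, ∀ w ∈ R n m,
      ∃ q ∈ Vd (HR Q) ξ, supp q ⊆ D ∧ w ∈ bs q ξ ∧ bs q ξ ⊆ R n m := by
    intro ξ hξ R hR n m w hw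
    rw [HR_eq] at hR
    obtain ⟨A, hA, _, hs, hU⟩ := hR.1 n m
    rw [hU] at hw ⊢
    simp only [Set.mem_iUnion] at hw
    obtain ⟨q, hq, hwq⟩ := hw
    exact ⟨q, hA hq, fun η hη => hD ξ hξ η (hs q hq hη), hwq,
      Set.subset_biUnion_of_mem (u := fun q => bs q ξ) hq⟩
  have hwa : w ∈ bs a τ := bs_le hra τ (hw τ)
  have hwp : w ∈ bs (rstr p D) τ := bs_le (hrp.trans (le_rstr p D)) τ (hw τ)
  obtain ⟨b, hb, hbD, hba, hbp, _⟩ := inter_pointD hG w τ a (rstr p D) ha.1 (rstr_mem hp D).1 haD
    (supp_rstr p D) hwa hwp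
  rw [res_eq_self ha.2] at hba
  rw [res_eq_self (rstr_mem hp D).2] at hbp
  have hin_st : ∀ {η}, η ∈ D → (glD b p D).st η = b.st η := fun h => if_pos h
  have hin_pr : ∀ {η}, η ∈ D → (glD b p D).pr η = b.pr η := fun h => if_pos h
  have hout_st : ∀ {η}, η ∉ D → (glD b p D).st η = p.st η := fun h => if_neg h
  have hout_pr : ∀ {η}, η ∉ D → (glD b p D).pr η = p.pr η := fun h => if_neg h
  have h1 : glD b p D ≤ b := by
    intro η
    by_cases h : η ∈ D
    · rw [hin_st h, hin_pr h]
      exact ⟨List.prefix_refl _, Finset.Subset.refl _, fun _ _ _ h h' => absurd h' (not_lt.2 h)⟩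
    · obtain ⟨h2, h3⟩ := notMem_supp fun h' => h (hbD h')
      rw [h2, h3]
      exact ⟨List.nil_prefix, Finset.empty_subset _, fun R hR => absurd hR (Finset.notMem_empty R)⟩
  refine ⟨glD b p D, ⟨fun η R hR => ?_, fun η hη => ?_⟩, h1.trans hba, ?_, fun ζ hζ => hout_st hζ⟩
  · by_cases h : η ∈ D
    · rw [hin_pr h] at hR
      exact hb.1 η R hR
    · rw [hout_pr h] at hR
      exact hp.1 η R hR
  · by_cases h : η ∈ D
    · rw [hin_st h, hin_pr h]
      exact hb.2 η hη
    · rw [hout_st h, hout_pr h]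
      exact hp.2 η hη
  · intro η
    by_cases h : η ∈ D
    · have h2 := hbp η
      rw [rstr_st h, rstr_pr h] at h2
      rw [hin_st h, hin_pr h]
      exact ⟨h2.1, h2.2.1, fun R hR i hi hi' => (bs_le h1 η).trans (h2.2.2 R hR i hi hi')⟩
    · rw [hout_st h, hout_pr h]
      exact ⟨List.prefix_refl _, Finset.Subset.refl _, fun _ _ _ h h' => absurd h' (not_lt.2 h)⟩

/-! ## Adding promises -/

/-- adding a promise -/
noncomputable def addPr (r : Rep I) (η : I) (R : Pr I) : Rep I := by
  classical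
  exact
  { st := r.st
    pr := fun ζ => if ζ = η then insert R (r.pr ζ) else r.pr ζ
    fin := by
      refine (r.fin.union (Set.finite_singleton η)).subset fun ζ hζ => ?_
      by_cases h : ζ = η
      · right; exact h
      · left; simpa [h] using hζ }

theorem addPr_pr_self (r : Rep I) (η : I) (R : Pr I) : R ∈ (addPr r η R).pr η := by
  classical
  simp [addPr]

theorem addPr_st (r : Rep I) (η : I) (R : Pr I) : (addPr r η R).st = r.st := rfl

theorem addPr_le (r : Rep I) (η : I) (R : Pr I) : addPr r η R ≤ r := fun ζ => by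
  classical
  refine ⟨List.prefix_refl _, ?_, fun _ _ _ h h' => absurd h' (not_lt.2 h)⟩
  by_cases h : ζ = η
  · simp [addPr, h]
  · simp [addPr, h]

theorem addPr_mem {RR : I → Set (Pr I)} {r : Rep I} {τ η : I} {R : Pr I} (hr : r ∈ Vd RR τ)
    (hη : η < τ) (hR : R ∈ RR η) : addPr r η R ∈ Vd RR τ := by
  classical
  refine ⟨fun ζ R' hR' => ?_, fun ζ hζ => ⟨(hr.2 ζ hζ).1, ?_⟩⟩
  · by_cases h : ζ = η
    · subst h
      simp only [addPr, if_true, Finset.mem_insert] at hR'
      rcases hR' with rfl | hR'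
      · exact hR
      · exact hr.1 _ _ hR'
    · simp only [addPr, h, if_false] at hR'
      exact hr.1 _ _ hR'
  · have h : ζ ≠ η := (hη.trans_le hζ).ne'
    simp only [addPr, h, if_false]
    exact (hr.2 ζ hζ).2

end Pool.Agent.Y575.MA
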