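import Mathlib
import Pool.Agent.Y575.MA.Sys
import Pool.Agent.Y575.MA.Defs

/-!
# The poset: basic facts, and the order of the generic functions
-/

namespace Pool.Agent.Y575.MA

open Cardinal Pool.Agent.Helper669.Iter Pool.Agent.Helper669.Forcing

set_option linter.unusedSectionVars false

universe u

/-- the relation on the index set with a top element -/
def QT {J : Type u} (Q : J → J → Prop) (x y : WithTop J) : Prop :=
  ∃ a b : J, x = (a : WithTop J) ∧ y = (b : WithTop J) ∧ Q a b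

/-- the conditions -/
def Cond {J : Type u} [LinearOrder J] [WellFoundedLT J] (Q : J → J → Prop) : Type u :=
  {r : Rep (WithTop J) // r ∈ Vd (HR (QT Q)) ⊤}

variable {J : Type u} [LinearOrder J] [WellFoundedLT J] {Q : J → J → Prop}

instance : Preorder (Cond Q) :=
  inferInstanceAs (Preorder {r : Rep (WithTop J) // r ∈ Vd (HR (QT Q)) ⊤})

theorem le_iff {p q : Cond Q} : p ≤ q ↔ p.1 ≤ q.1 := Iff.rfl

instance : Nonempty (Cond Q) := ⟨⟨one _, one_mem _ _⟩⟩

/-- compatibility -/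
def Compat {P : Type u} [Preorder P] (p q : P) : Prop := ∃ s, s ≤ p ∧ s ≤ q

/-- the part of `p` below `ξ` -/
noncomputable def resP (p : Cond Q) (ξ : WithTop J) : Cond Q :=
  ⟨res p.1 ξ, adm_res p.2.1 ξ, (below_res p.1 ξ).mono le_top⟩

theorem resP_mem (p : Cond Q) (ξ : WithTop J) : (resP p ξ).1 ∈ Vd (HR (QT Q)) ξ :=
  res_mem p.2.1 ξ

theorem resP_le {p q : Cond Q} {ξ : WithTop J} (h : p ≤ q) (hq : Below q.1 ξ) : resP p ξ ≤ q :=
  res_le (r := p.1) (q := q.1) h hq

/-! ### Chain condition and antichains -/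

theorem cond_ccc {Y : Type u} (f : Y → Cond Q) (hY : ¬ Countable Y) :
    ∃ y y', y ≠ y' ∧ Compat (f y) (f y') := by
  obtain ⟨y, y', hne, q, hq, h1, h2⟩ := ccc (RR := HR (QT Q)) (τ := (⊤ : WithTop J))
    (fun y => (f y).1) (fun y => (f y).2) hY
  exact ⟨y, y', hne, ⟨q, hq⟩, h1, h2⟩

/-- inside every dense set there is a countable set compatible with everything -/
theorem exists_antichain (D : Set (Cond Q)) (hD : ∀ p, ∃ q ≤ p, q ∈ D) :
    ∃ A ⊆ D, A.Countable ∧ ∀ p, ∃ a ∈ A, Compat a p := by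
  obtain ⟨A, hA⟩ := zorn_subset {A : Set (Cond Q) | A ⊆ D ∧ ∀ a ∈ A, ∀ b ∈ A, Compat a b → a = b}
    (by
      intro c hc hchain
      refine ⟨⋃₀ c, ⟨Set.sUnion_subset fun s hs => (hc hs).1, ?_⟩,
        fun s hs => Set.subset_sUnion_of_mem hs⟩
      rintro a ⟨s, hs, ha⟩ b ⟨t, ht, hb⟩ hab
      rcases hchain.total hs ht with h | h
      · exact (hc ht).2 a (h ha) b hb hab
      · exact (hc hs).2 a ha b (h hb) hab)
  refine ⟨A, hA.prop.1, ?_, ?_⟩
  · by_contra hcount
    have hcount' : ¬ Countable A := hcount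
    obtain ⟨y, y', hne, h⟩ := cond_ccc (fun a : A => a.1) hcount'
    exact hne (Subtype.ext (hA.prop.2 y.1 y.2 y'.1 y'.2 h))
  · intro p
    by_contra hcon
    push Not at hcon
    obtain ⟨q, hqp, hqD⟩ := hD p
    have hq : q ∉ A := by
      intro hq
      exact hcon q hq ⟨q, le_rfl, hqp⟩
    have hcon' : ∀ a ∈ A, ¬ Compat a q := by
      rintro a ha ⟨s, h1, h2⟩
      exact hcon a ha ⟨s, h1, h2.trans hqp⟩
    have hmem : insert q A ∈ {A : Set (Cond Q) | A ⊆ D ∧ ∀ a ∈ A, ∀ b ∈ A, Compat a b → a = b} := by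
      refine ⟨Set.insert_subset hqD hA.prop.1, ?_⟩
      rintro a (rfl | ha) b (rfl | hb) hab
      · rfl
      · obtain ⟨s, h1, h2⟩ := hab
        exact absurd ⟨s, h2, h1⟩ (hcon' b hb)
      · exact absurd hab (hcon' a ha)
      · exact hA.prop.2 a ha b hb hab
    exact hq (hA.le_of_ge hmem (Set.subset_insert q A) (Set.mem_insert q A))

/-- the pigeonhole principle for conditions -/
theorem exists_compat_same {X Z : Type u} (h : #Z * ℵ₀ < #X) (f : X → Cond Q) (z : X → Z) :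
    ∃ x x', x ≠ x' ∧ z x = z x' ∧ Compat (f x) (f x') := by
  have h1 : ∃ c, ¬ Countable {x // z x = c} := by
    by_contra hcon
    push Not at hcon
    have h2 : #X = Cardinal.sum fun c => #{x // z x = c} := by
      rw [← mk_sigma]
      exact (Equiv.sigmaFiberEquiv z).symm.cardinal_eq
    have h3 : #X ≤ #Z * ℵ₀ := by
      rw [h2]
      refine (Cardinal.sum_le_sum _ (fun _ => ℵ₀) fun c => ?_).trans ?_
      · have := hcon c
        exact mk_le_aleph0
      · rw [Cardinal.sum_const']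
    exact absurd h3 (not_le.2 h)
  obtain ⟨c, hc⟩ := h1
  obtain ⟨y, y', hne, hcomp⟩ := cond_ccc (fun x : {x // z x = c} => f x.1) hc
  exact ⟨y.1, y'.1, fun h => hne (Subtype.ext h), y.2.trans y'.2.symm, hcomp⟩

theorem cardinalsPreserved (p : Cond Q) : p ∈ CardinalsPreserved.{u, u} (Cond Q) := by
  intro μ ν hμν hν q _ hq
  obtain ⟨r, _, R, hR1, hR2⟩ := mem_fex.1 hq q le_rfl
  have h1 : ∀ y : ν.out, ∃ s ≤ r, ∃ x : μ.out, s ∈ meets (R x y) := fun y =>
    mem_fex.1 (hR2 y) r le_rfl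
  choose f hf x hx using h1
  obtain ⟨y, y', hne, hz, s, hs1, hs2⟩ := exists_compat_same (X := ν.out) (Z := μ.out) (by
    rw [mk_out, mk_out]
    exact mul_lt_of_lt hν.le hμν hν) f x
  apply hne
  refine IsFun.unique (down_IsFun R r hR1 s (hs1.trans (hf y))) (down_meets _ _ (hx y) s hs1) ?_
  rw [hz]
  exact down_meets _ _ (hx y') s hs2

/-! ### Extending stems -/

/-- The stem at `η` can be extended by a number from any given infinite set without changing
later stems. -/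
theorem push_one (r : Cond Q) (η : J) (S : Set ℕ) (hS : S.Infinite) :
    ∃ m ∈ S, ∃ r' ≤ r, r'.1.st (η : WithTop J) = r.1.st η ++ [m] ∧
      ∀ ζ : WithTop J, (η : WithTop J) < ζ → r'.1.st ζ = r.1.st ζ := by
  have hη : (η : WithTop J) < ⊤ := WithTop.coe_lt_top η
  obtain ⟨q, hq, hle, m₀, hD⟩ := finset_amal (η : WithTop J) (r.1.pr η) (r.2.1 η)
    (r.1.st η).length (res r.1 η) (res_mem r.2.1 η)
  obtain ⟨m, hm, hmD⟩ := hS.exists_gt m₀
  refine ⟨m, hm, ⟨push (glue q r.1 η) η m, push_mem (glue_mem hq r.2 hη.le) hη m⟩, ?_, ?_, ?_⟩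
  · show push (glue q r.1 η) η m ≤ r.1
    refine le_trans (push_le fun R hR => ?_) (glue_le hle)
    rw [glue_pr_ge le_rfl] at hR
    rw [glue_st_ge le_rfl, bs_glue le_rfl]
    exact hD m hmD.le R hR
  · show (push (glue q r.1 η) η m).st η = _
    rw [push_st_self, glue_st_ge le_rfl]
  · intro ζ hζ
    show (push (glue q r.1 η) η m).st ζ = _
    rw [push_st_ne _ _ hζ.ne', glue_st_ge hζ.le]

/-- The stem at `η` can be lengthened arbitrarily without changing later stems. -/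
theorem push_long (r : Cond Q) (η : J) (N : ℕ) :
    ∃ r' ≤ r, N < (r'.1.st (η : WithTop J)).length ∧
      ∀ ζ : WithTop J, (η : WithTop J) < ζ → r'.1.st ζ = r.1.st ζ := by
  induction N with
  | zero =>
    obtain ⟨m, _, r', h1, h2, h3⟩ := push_one r η Set.univ Set.infinite_univ
    exact ⟨r', h1, by rw [h2]; simp, h3⟩
  | succ N ih =>
    obtain ⟨r', h1, h2, h3⟩ := ih
    obtain ⟨m, _, r'', h4, h5, h6⟩ := push_one r' η Set.univ Set.infinite_univ
    refine ⟨r'', h4.trans h1, by rw [h5]; simp; omega, fun ζ hζ => (h6 ζ hζ).trans (h3 ζ hζ)⟩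

/-- stems can be extended so that the Cohen part becomes a given sequence -/
theorem push_list (ξ : J) (t : List ℕ) : ∀ r : Cond Q,
    ∃ r' ≤ r, (r'.1.st (ξ : WithTop J)).map (fun a => (Nat.unpair a).1) =
      (r.1.st (ξ : WithTop J)).map (fun a => (Nat.unpair a).1) ++ t := by
  induction t with
  | nil => intro r; exact ⟨r, le_rfl, by simp⟩
  | cons a t ih =>
    intro r
    have hinf : {m : ℕ | (Nat.unpair m).1 = a}.Infinite := by
      refine Set.infinite_of_injective_forall_mem (f := fun k => Nat.pair a k) ?_ ?_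
      · intro k k' h
        have := congrArg Nat.unpair h
        simpa using this
      · intro k
        simp
    obtain ⟨m, hm, r', h1, h2, _⟩ := push_one r ξ _ hinf
    obtain ⟨r'', h3, h4⟩ := ih r'
    refine ⟨r'', h3.trans h1, ?_⟩
    rw [h4, h2]
    have : (Nat.unpair m).1 = a := hm
    simp [this]

/-! ### The generic reals -/

/-- the name of the generic function added at coordinate `ξ` -/
def Ee (ξ : J) (n m : ℕ) : Set (Cond Q) :=
  {p | n < (p.1.st (ξ : WithTop J)).length ∧ (p.1.st (ξ : WithTop J)).getD n 0 = m}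

/-- the name of the Cohen real obtained from the generic function added at coordinate `ξ` -/
def Cc (ξ : J) (n m : ℕ) : Set (Cond Q) :=
  {p | n < (p.1.st (ξ : WithTop J)).length ∧
    (Nat.unpair ((p.1.st (ξ : WithTop J)).getD n 0)).1 = m}

theorem st_mono {p q : Cond Q} (h : p ≤ q) (ξ : WithTop J) {n : ℕ} (hn : n < (q.1.st ξ).length) :
    n < (p.1.st ξ).length ∧ (p.1.st ξ).getD n 0 = (q.1.st ξ).getD n 0 :=
  ⟨hn.trans_le (h ξ).1.length_le, (getD_prefix (h ξ).1 hn).symm⟩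

theorem down_Ee (ξ : J) (n m : ℕ) : Down (Ee (Q := Q) ξ n m) := by
  rintro p ⟨h1, h2⟩ q hq
  obtain ⟨h3, h4⟩ := st_mono hq ξ h1
  exact ⟨h3, h4.trans h2⟩

theorem down_Cc (ξ : J) (n m : ℕ) : Down (Cc (Q := Q) ξ n m) := by
  rintro p ⟨h1, h2⟩ q hq
  obtain ⟨h3, h4⟩ := st_mono hq ξ h1
  exact ⟨h3, by rw [h4]; exact h2⟩

theorem isFun_Ee (ξ : J) (p : Cond Q) : p ∈ IsFun (Ee ξ) := by
  refine ⟨fun n => mem_fex.2 fun q _ => ?_, fun n m m' => mem_fimp.2 fun q _ h => ?_⟩
  · obtain ⟨r, hr, hlen, _⟩ := push_long q ξ n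
    exact ⟨r, hr, _, meets_of_mem ⟨hlen, rfl⟩⟩
  · obtain ⟨r, hr, h1⟩ := exists_of_meets (down_Ee ξ n m) h.1
    obtain ⟨s, hs, h2⟩ := exists_of_meets (down_Ee ξ n m') (down_meets _ _ h.2 r hr)
    have h3 := down_Ee ξ n m r h1 s hs
    exact ⟨q, le_rfl, h3.2.symm.trans h2.2⟩

theorem isFun_Cc (ξ : J) (p : Cond Q) : p ∈ IsFun (Cc ξ) := by
  refine ⟨fun n => mem_fex.2 fun q _ => ?_, fun n m m' => mem_fimp.2 fun q _ h => ?_⟩
  · obtain ⟨r, hr, hlen, _⟩ := push_long q ξ n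
    exact ⟨r, hr, _, meets_of_mem ⟨hlen, rfl⟩⟩
  · obtain ⟨r, hr, h1⟩ := exists_of_meets (down_Cc ξ n m) h.1
    obtain ⟨s, hs, h2⟩ := exists_of_meets (down_Cc ξ n m') (down_meets _ _ h.2 r hr)
    have h3 := down_Cc ξ n m r h1 s hs
    exact ⟨q, le_rfl, h3.2.symm.trans h2.2⟩

/-- a later generic function is not dominated by an earlier one -/
theorem not_leStar {η ξ : J} (h : η < ξ) (p : Cond Q) : p ∈ fnot (LeStar (Ee ξ) (Ee η)) := by
  intro q _ hq
  obtain ⟨r, _, N, hN⟩ := mem_fex.1 hq q le_rfl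
  obtain ⟨r1, h1, hlen1, _⟩ := push_long r ξ N
  set n := (r1.1.st (ξ : WithTop J)).length with hn
  obtain ⟨r2, h2, hlen2, hst2⟩ := push_long r1 η n
  set b := (r2.1.st (η : WithTop J)).getD n 0 with hb
  obtain ⟨m, hm, r3, h3, hst3, _⟩ := push_one r2 ξ {m | b < m} (Set.infinite_of_not_bddAbove
    (by
      rintro ⟨c, hc⟩
      have h4 : max c b + 1 ≤ c := hc (show b < max c b + 1 by omega)
      omega))
  rw [hst2 _ (WithTop.coe_lt_coe.2 h)] at hst3
  have h5 : r3 ∈ Ee η n b := down_Ee η n b r2 ⟨hlen2, rfl⟩ r3 h3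
  have h6 : r3 ∈ Ee ξ n m := by
    refine ⟨by rw [hst3, List.length_append, ← hn]; simp, ?_⟩
    rw [hst3, List.getD_append_right _ _ _ _ (by rw [← hn]), ← hn]
    simp
  obtain ⟨r4, h4, h7⟩ := mem_fimp.1 (hN n hlen1.le m b) r3 (h3.trans (h2.trans h1))
    ⟨meets_of_mem h6, meets_of_mem h5⟩
  have h8 : m ≤ b := h7
  have h9 : b < m := hm
  omega

end Pool.Agent.Y575.MA
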