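import Mathlib
import Pool.Agent.Y575.MA.Gen

/-!
# The generic functions: the order, domination, and Cohen reals
-/

namespace Pool.Agent.Y575.MA

open Cardinal Pool.Agent.Helper669.Iter Pool.Agent.Helper669.Forcing

set_option linter.unusedSectionVars false

universe u

variable {J : Type u} [LinearOrder J] [WellFoundedLT J] {Q : J → J → Prop}

theorem countable_supp (a : Cond Q) : {j : J | (j : WithTop J) ∈ supp a.1}.Countable :=
  Set.Countable.preimage_of_injOn a.1.fin.countable fun _ _ _ _ h => WithTop.coe_injective h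

theorem top_notMem_supp (a : Cond Q) : (⊤ : WithTop J) ∉ supp a.1 := by
  obtain ⟨h1, h2⟩ := a.2.2 ⊤ le_rfl
  rintro (h | h)
  · exact h h1
  · exact h h2

theorem below_of_supp (hQlt : ∀ x y, Q x y → x < y) {a : Cond Q} {b : J}
    (h : supp a.1 ⊆ {η | QT Q η b}) : Below a.1 (b : WithTop J) := by
  intro η hη
  apply notMem_supp
  intro h'
  obtain ⟨c, d, rfl, h2, h3⟩ := h h'
  have h4 : b = d := WithTop.coe_injective h2
  subst h4
  exact absurd (WithTop.coe_le_coe.1 hη) (not_le.2 (hQlt _ _ h3))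

/-- A function with a name depending only on the `Q`-predecessors of `b` is dominated by the
generic function at `b`. -/
theorem dominated_aux (hQlt : ∀ x y, Q x y → x < y) (x : ℕ → ℕ → Set (Cond Q)) (b : J)
    (A : ℕ → Set (Cond Q))
    (hAD : ∀ n, A n ⊆ {q | (∃ m, q ∈ meets (x n m)) ∨ q ∈ fnot (IsFun x)})
    (hAc : ∀ n, (A n).Countable) (hApre : ∀ n p, ∃ a ∈ A n, Compat a p)
    (hsupp : ∀ n, ∀ a ∈ A n, supp a.1 ⊆ {η | QT Q η b}) {p : Cond Q} (hp : p ∈ IsFun x) :
    ∃ p' ≤ p, p' ∈ LeStar x (Ee b) := by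
  classical
  have hbelow : ∀ n, ∀ a ∈ A n, Below a.1 (b : WithTop J) := fun n a ha =>
    below_of_supp hQlt (hsupp n a ha)
  have hval : ∀ n, ∀ a : Cond Q, ∃ m, a ∈ A n → (a ∈ meets (x n m) ∨ a ∈ fnot (IsFun x)) := by
    intro n a
    by_cases ha : a ∈ A n
    · rcases hAD n ha with ⟨m, h1⟩ | h
      · exact ⟨m, fun _ => Or.inl h1⟩
      · exact ⟨0, fun _ => Or.inr h⟩
    · exact ⟨0, fun h => absurd h ha⟩
  choose v hv using hval
  let B : ℕ → ℕ → Set (Cond Q) := fun n m => {a | a ∈ A n ∧ v n a ≤ m}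
  let R : Pr (WithTop J) := fun n m => ⋃ q ∈ Subtype.val '' (B n m), bs q (b : WithTop J)
  have hR : R ∈ HR (QT Q) (b : WithTop J) := by
    rw [HR_eq]
    refine ⟨fun n m => ⟨Subtype.val '' (B n m), ?_, ?_, ?_, rfl⟩, fun n q hq => ?_⟩
    · rintro _ ⟨a, ha, rfl⟩
      exact ⟨a.2.1, hbelow n a ha.1⟩
    · exact ((hAc n).mono fun a ha => ha.1).image _
    · rintro _ ⟨a, ha, rfl⟩
      exact hsupp n a ha.1
    · obtain ⟨a, ha, s, hsa, hsq⟩ := hApre n ⟨q, hq.1, hq.2.mono le_top⟩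
      have h1 : resP s b ≤ a := resP_le hsa (hbelow n a ha)
      have h2 : (resP s b).1 ≤ q := resP_le (q := ⟨q, hq.1, hq.2.mono le_top⟩) hsq hq.2
      refine ⟨(resP s b).1, resP_mem s b, h2, v n a, fun m hm => ?_⟩
      have h3 : bs (resP s (b : WithTop J)).1 (b : WithTop J) ⊆ bs a.1 (b : WithTop J) :=
        bs_le h1 _
      exact h3.trans (Set.subset_biUnion_of_mem (u := fun q => bs q (b : WithTop J))
        ⟨a, ⟨ha, hm⟩, rfl⟩)
  have hbtop : (b : WithTop J) < ⊤ := WithTop.coe_lt_top b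
  let p' : Cond Q := ⟨addPr p.1 b R, addPr_mem p.2 hbtop hR⟩
  have hp'p : p' ≤ p := addPr_le p.1 b R
  refine ⟨p', hp'p, mem_fex_of_mem (p.1.st (b : WithTop J)).length ?_ ?_⟩
  · exact down_fall fun _ => down_fall fun _ => down_fall fun _ => down_fall fun _ => down_fimp _ _
  · intro n hn c d
    refine mem_fimp.2 fun s hs h => ⟨s, le_rfl, ?_⟩
    show c ≤ d
    obtain ⟨s', hs', hre⟩ := exists_of_meets (down_Ee b n d) h.2
    have h1 : bs s'.1 (b : WithTop J) ⊆ R n ((s'.1.st (b : WithTop J)).getD n 0) :=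
      ((hs'.trans hs : s' ≤ p') (b : WithTop J)).2.2 R (addPr_pr_self p.1 b R) n hn hre.1
    rw [hre.2] at h1
    obtain ⟨w, hw⟩ := bs_nonempty good s'.2
    have h2 := h1 (hw b)
    simp only [R, Set.mem_iUnion] at h2
    obtain ⟨_, ⟨a, ha, rfl⟩, hwa⟩ := h2
    have hwa' : w ∈ bs a.1 (⊤ : WithTop J) := by
      rwa [bs_below (hbelow n a ha.1) le_top]
    obtain ⟨q, hq, hq1, hq2⟩ := compat_of_point good s'.2 a.2 (hw ⊤) hwa'
    have hfun : (⟨q, hq⟩ : Cond Q) ∈ IsFun x :=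
      down_IsFun x p hp _ ((show (⟨q, hq⟩ : Cond Q) ≤ s' from hq1).trans
        (hs'.trans (hs.trans hp'p)))
    rcases hv n a ha.1 with h3 | h3
    · have h4 : v n a = c := IsFun.unique hfun (down_meets _ _ h3 _ (show ⟨q, hq⟩ ≤ a from hq2))
        (down_meets _ _ h.1 _ ((show (⟨q, hq⟩ : Cond Q) ≤ s' from hq1).trans hs'))
      rw [← h4]
      exact ha.2
    · exact absurd hfun (h3 _ (show ⟨q, hq⟩ ≤ a from hq2))

/-- every function of the extension is dominated by some generic function -/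
theorem dominated (hQlt : ∀ x y, Q x y → x < y)
    (hcof : ∀ S : Set J, S.Countable → ∃ b, ∀ s ∈ S, Q s b) (x : ℕ → ℕ → Set (Cond Q)) :
    ∃ b : J, ∀ p ∈ IsFun x, ∃ p' ≤ p, p' ∈ LeStar x (Ee b) := by
  classical
  have hD : ∀ n, ∃ A ⊆ {q : Cond Q | (∃ m, q ∈ meets (x n m)) ∨
      q ∈ fnot (IsFun x)}, A.Countable ∧ ∀ p, ∃ a ∈ A, Compat a p := by
    intro n
    apply exists_antichain
    intro q
    by_cases hq : q ∈ fnot (IsFun x)
    · exact ⟨q, le_rfl, Or.inr hq⟩
    · simp only [fnot, Set.mem_ofPred_eq, not_forall, not_not] at hq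
      obtain ⟨q', hq', hfun⟩ := hq
      obtain ⟨q'', hq'', m, hm⟩ := IsFun.total hfun n
      exact ⟨q'', hq''.trans hq', Or.inl ⟨m, hm⟩⟩
  choose A hAD hAc hApre using hD
  obtain ⟨b, hb⟩ := hcof (⋃ n, ⋃ a ∈ A n, {j : J | (j : WithTop J) ∈ supp a.1})
    (Set.countable_iUnion fun n => (hAc n).biUnion fun a _ => countable_supp a)
  refine ⟨b, fun p hp => dominated_aux hQlt x b A hAD hAc hApre (fun n a ha η hη => ?_) hp⟩
  induction η using WithTop.recTopCoe with
  | top => exact absurd hη (top_notMem_supp a)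
  | coe j => exact ⟨j, b, rfl, rfl, hb j (Set.mem_iUnion.2 ⟨n, Set.mem_biUnion ha hη⟩)⟩

/-- the condition deciding an initial segment of one generic function -/
noncomputable def sg (Q : J → J → Prop) (a : J) (s : List ℕ) : Cond Q := by
  classical
  exact ⟨{ st := Function.update (fun _ => []) (a : WithTop J) s
           pr := fun _ => ∅
           fin := by
             refine (Set.finite_singleton (a : WithTop J)).subset fun η hη => ?_
             by_contra h
             have h' : η ≠ (a : WithTop J) := h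
             simp [Function.update_of_ne h'] at hη },
    fun η R hR => absurd hR (Finset.notMem_empty R), fun η hη => by
      have h : η ≠ (a : WithTop J) := by
        rintro rfl
        exact absurd hη (not_le.2 (WithTop.coe_lt_top a))
      simp [Function.update_of_ne h]⟩

theorem sg_st (a : J) (s : List ℕ) : (sg Q a s).1.st (a : WithTop J) = s := by
  classical
  simp [sg]

theorem sg_st_ne (a : J) (s : List ℕ) {η : WithTop J} (h : η ≠ a) : (sg Q a s).1.st η = [] := by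
  classical
  simp [sg, Function.update_of_ne h]

theorem sg_pr (a : J) (s : List ℕ) (η : WithTop J) : (sg Q a s).1.pr η = ∅ := rfl

theorem supp_sg (a : J) (s : List ℕ) : supp (sg Q a s).1 ⊆ {(a : WithTop J)} := by
  intro η hη
  by_contra h
  rcases hη with h1 | h1
  · exact h1 (sg_st_ne a s h)
  · exact h1 rfl

theorem le_sg {r : Cond Q} {a : J} {s : List ℕ} (h : s <+: r.1.st (a : WithTop J)) :
    r ≤ sg Q a s := by
  intro η
  rw [sg_pr]
  by_cases h' : η = (a : WithTop J)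
  · subst h'
    rw [sg_st]
    exact ⟨h, Finset.empty_subset _, fun R hR => absurd hR (Finset.notMem_empty R)⟩
  · rw [sg_st_ne a s h']
    exact ⟨List.nil_prefix, Finset.empty_subset _, fun R hR => absurd hR (Finset.notMem_empty R)⟩

/-- the generic functions are ordered by `≤*` along `Q` -/
theorem leStar_of_Q (hQlt : ∀ x y, Q x y → x < y) {a b : J} (h : Q a b) (p : Cond Q) :
    p ∈ LeStar (Ee a) (Ee b) := by
  refine mem_fex.2 fun q _ => ?_
  obtain ⟨p', hp', h'⟩ := dominated_aux hQlt (Ee a) b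
    (fun n => Set.range fun s : {s : List ℕ // s.length = n + 1} => sg Q a s.1) (by
      rintro n _ ⟨⟨s, hs⟩, rfl⟩
      exact Or.inl ⟨_, meets_of_mem ⟨by rw [sg_st]; show n < s.length; omega, rfl⟩⟩)
    (fun n => Set.countable_range _) (by
      intro n p
      obtain ⟨r, hr, hlen, _⟩ := push_long p a n
      refine ⟨_, ⟨⟨(r.1.st (a : WithTop J)).take (n + 1), ?_⟩, rfl⟩, r, ?_, hr⟩
      · rw [List.length_take]; omega
      · exact le_sg (List.take_prefix _ _)) (by
      rintro n _ ⟨s, rfl⟩ η hη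
      rw [Set.mem_singleton_iff.1 (supp_sg _ _ hη)]
      exact ⟨a, b, rfl, rfl, h⟩) (isFun_Ee a q)
  obtain ⟨r, hr, N, hN⟩ := mem_fex.1 h' p' le_rfl
  exact ⟨r, hr.trans hp', N, hN⟩

/-- The Cohen real at a coordinate outside a set `D` closed under predecessors avoids all meager
sets whose codes depend on the coordinates in `D`. -/
theorem cohen_avoids (T : ℕ → List ℕ → Set (Cond Q)) :
    ∃ S : Set J, S.Countable ∧ ∀ D : Set J, (∀ x ∈ D, ∀ y, Q y x → y ∈ D) → S ⊆ D →
      ∀ ζ, ζ ∉ D → IsMeagerCode T ⊆ fnot (InMeager (Cc ζ) T) := by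
  classical
  have hD : ∀ k s, ∃ A ⊆ {q : Cond Q | (∃ t, s <+: t ∧ q ∈ fnot (meets (T k t))) ∨
      q ∈ fnot (IsMeagerCode T)}, A.Countable ∧ ∀ p, ∃ a ∈ A, Compat a p := by
    intro k s
    apply exists_antichain
    intro q
    by_cases hq : q ∈ fnot (IsMeagerCode T)
    · exact ⟨q, le_rfl, Or.inr hq⟩
    · simp only [fnot, Set.mem_ofPred_eq, not_forall, not_not] at hq
      obtain ⟨q', hq', hT⟩ := hq
      obtain ⟨r, hr, t, ht1, ht2⟩ := mem_fex.1 (hT k s) q' le_rfl
      exact ⟨r, hr.trans hq', Or.inl ⟨t, ht1, ht2⟩⟩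
  choose A hAD hAc hApre using hD
  refine ⟨⋃ k, ⋃ s, ⋃ a ∈ A k s, {j : J | (j : WithTop J) ∈ supp a.1},
    Set.countable_iUnion fun k => Set.countable_iUnion fun s => (hAc k s).biUnion fun a _ =>
      countable_supp a, ?_⟩
  intro D hDcl hSD ζ hζ p hp q hq hqM
  obtain ⟨r, hr, k, hk⟩ := mem_fex.1 hqM q le_rfl
  set s : List ℕ := (r.1.st (ζ : WithTop J)).map fun a => (Nat.unpair a).1 with hs
  obtain ⟨a, ha, r0, hr0a, hr0r⟩ := hApre k s r
  have hsupp : supp a.1 ⊆ (fun j : J => (j : WithTop J)) '' D := by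
    intro η hη
    induction η using WithTop.recTopCoe with
    | top => exact absurd hη (top_notMem_supp a)
    | coe j =>
      exact ⟨j, hSD (Set.mem_iUnion.2 ⟨k, Set.mem_iUnion.2 ⟨s, Set.mem_biUnion ha hη⟩⟩), rfl⟩
  obtain ⟨r1, hr1, h1a, h1r, h1st⟩ := amalD (Q := QT Q)
    (D := (fun j : J => (j : WithTop J)) '' D) (by
      rintro _ ⟨x, hx, rfl⟩ η ⟨c, d, rfl, h2, h3⟩
      have h4 : x = d := WithTop.coe_injective h2
      subst h4
      exact ⟨c, hDcl x hx c h3, rfl⟩) a.2 hsupp r.2 r0.2 hr0a hr0r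
  have hζ' : (ζ : WithTop J) ∉ (fun j : J => (j : WithTop J)) '' D := by
    rintro ⟨j, hj, h⟩
    exact hζ (WithTop.coe_injective h ▸ hj)
  have h1a' : (⟨r1, hr1⟩ : Cond Q) ≤ a := h1a
  have h1r' : (⟨r1, hr1⟩ : Cond Q) ≤ r := h1r
  rcases hAD k s ha with ⟨t, ⟨t', rfl⟩, hat⟩ | hnot
  swap
  · exact hnot ⟨r1, hr1⟩ h1a' (down_IsMeagerCode T p hp _ (h1r'.trans (hr.trans hq)))
  obtain ⟨r2, h2, h2st⟩ := push_list ζ t' (⟨r1, hr1⟩ : Cond Q)
  have h1st' : (⟨r1, hr1⟩ : Cond Q).1.st (ζ : WithTop J) = r.1.st (ζ : WithTop J) := h1st _ hζ'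
  rw [h1st', ← hs] at h2st
  have hinit : r2 ∈ InitSeg (s ++ t') (Cc ζ) := by
    intro i hi
    refine meets_of_mem ⟨?_, ?_⟩
    · rw [← h2st] at hi; simpa using hi
    · rw [← h2st, List.length_map] at hi
      rw [← h2st, List.getD_eq_getElem _ _ hi, List.getD_eq_getElem _ _ (by simpa using hi)]
      simp
  obtain ⟨r3, h3, h3T⟩ := mem_fimp.1 (hk (s ++ t')) r2 (h2.trans h1r') hinit
  exact hat r3 (h3.trans (h2.trans h1a')) h3T

end Pool.Agent.Y575.MA
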