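import Mathlib
import Pool.Agent.Y575.MA.Dom

/-!
# The forcing notion for two regular cardinals
-/

namespace Pool.Agent.Y575.MA

open Cardinal Ordinal Pool.Agent.Helper669.Iter Pool.Agent.Helper669.Forcing

set_option linter.unusedSectionVars false

/-- small subsets of a regular cardinal are bounded -/
theorem exists_bound {κ : Cardinal.{0}} (hκ : κ.IsRegular) (S : Set κ.ord.ToType) (hS : #S < κ) :
    ∃ b, ∀ s ∈ S, s < b := by
  have hc : Order.cof κ.ord.ToType = κ := by rw [cof_toType, hκ.cof_ord]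
  by_contra hcon
  push Not at hcon
  have h1 : IsCofinal S := fun b => by
    obtain ⟨s, hs, hb⟩ := hcon b
    exact ⟨s, hs, hb⟩
  have h2 := Order.cof_le h1
  rw [hc] at h2
  exact absurd h2 (not_le.2 hS)

section

variable (κ lam : Cardinal.{0})

/-- the index set -/
abbrev JJ : Type := κ.ord.ToType ×ₗ lam.ord.ToType

/-- the relation -/
def QQ (x y : JJ κ lam) : Prop := (ofLex x).1 ≤ (ofLex y).1 ∧ (ofLex x).2 < (ofLex y).2

/-- the forcing notion -/
abbrev PP : Type := Cond (QQ κ lam)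

variable {κ lam}

theorem QQ_lt {x y : JJ κ lam} (h : QQ κ lam x y) : x < y := by
  rw [Prod.Lex.lt_iff]
  rcases lt_or_eq_of_le h.1 with h1 | h1
  · exact Or.inl h1
  · exact Or.inr ⟨h1, h.2⟩

theorem hcof (hκ : κ.IsRegular) (hlam : lam.IsRegular) (hκ0 : ℵ₀ < κ) (hlam0 : ℵ₀ < lam)
    (S : Set (JJ κ lam)) (hS : S.Countable) : ∃ b, ∀ s ∈ S, QQ κ lam s b := by
  obtain ⟨a, ha⟩ := exists_bound hκ ((fun x : JJ κ lam => (ofLex x).1) '' S)
    ((le_aleph0_iff_set_countable.2 (hS.image _)).trans_lt hκ0)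
  obtain ⟨b, hb⟩ := exists_bound hlam ((fun x : JJ κ lam => (ofLex x).2) '' S)
    ((le_aleph0_iff_set_countable.2 (hS.image _)).trans_lt hlam0)
  exact ⟨toLex (a, b), fun s hs => ⟨(ha _ ⟨s, hs, rfl⟩).le, hb _ ⟨s, hs, rfl⟩⟩⟩

theorem leStar_refl {P : Type} [Preorder P] {x : ℕ → ℕ → Set P} {p : P} (h : p ∈ IsFun x) :
    p ∈ LeStar x x := by
  refine mem_fex_of_mem 0 ?_ ?_
  · exact down_fall fun _ => down_fall fun _ => down_fall fun _ => down_fall fun _ => down_fimp _ _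
  · intro n _ a b
    refine mem_fimp.2 fun q hq h' => ⟨q, le_rfl, ?_⟩
    show a ≤ b
    exact (IsFun.unique (down_IsFun x p h q hq) h'.1 h'.2).le

theorem addXDLe (hκ : κ.IsRegular) (hlam : lam.IsRegular) (hκ0 : ℵ₀ < κ) (hlam0 : ℵ₀ < lam)
    (p : PP κ lam) : p ∈ AddXDLe (PP κ lam) κ.out := by
  have hA : #(κ.ord.ToType) = κ := by rw [mk_toType, card_ord]
  obtain ⟨e⟩ : Nonempty (κ.out ≃ κ.ord.ToType) := Cardinal.eq.1 (by rw [mk_out, hA])
  obtain ⟨b0, _⟩ := exists_bound hlam ∅ (by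
    rw [mk_eq_zero]; exact aleph0_pos.trans hlam0)
  refine mem_fex_of_mem (lam.ord.ToType) (down_fex _) ?_
  refine mem_fex_of_mem (fun y z => Ee (Q := QQ κ lam) (toLex (e y, z))) ?_ ?_
  · exact down_fand (down_fall fun _ => down_fall fun _ => down_IsFun _) (down_fand
      (down_fall fun _ => down_fimp _ _) (down_fall fun _ => down_fex _))
  refine ⟨fun y z => isFun_Ee (Q := QQ κ lam) _ p, fun x => mem_fimp.2 fun q _ hq => ?_,
    fun y => ?_⟩
  · obtain ⟨b, hb⟩ := dominated (Q := QQ κ lam) (fun _ _ h => QQ_lt h)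
      (hcof hκ hlam hκ0 hlam0) x
    obtain ⟨p', hp', h'⟩ := hb q hq
    have h2 : p' ∈ LeStar x (Ee (Q := QQ κ lam) (toLex (e (e.symm (ofLex b).1), (ofLex b).2))) := by
      rw [Equiv.apply_symm_apply]
      exact h'
    have h3 : p' ∈ fex fun z : lam.ord.ToType =>
        LeStar x (Ee (Q := QQ κ lam) (toLex (e (e.symm (ofLex b).1), z))) :=
      mem_fex_of_mem (φ := fun z : lam.ord.ToType =>
        LeStar x (Ee (Q := QQ κ lam) (toLex (e (e.symm (ofLex b).1), z)))) (ofLex b).2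
        (down_LeStar _ _) h2
    have h4 : p' ∈ fex fun y : κ.out => fex fun z : lam.ord.ToType =>
        LeStar x (Ee (Q := QQ κ lam) (toLex (e y, z))) :=
      mem_fex_of_mem (φ := fun y : κ.out => fex fun z : lam.ord.ToType =>
        LeStar x (Ee (Q := QQ κ lam) (toLex (e y, z)))) (e.symm (ofLex b).1) (down_fex _) h3
    exact ⟨p', hp', h4⟩
  · obtain ⟨a', ha'⟩ := exists_bound hκ {e y} (by
      rw [mk_singleton]; exact one_lt_aleph0.trans hκ0)
    have hlt : ∀ z : lam.ord.ToType, (toLex (e y, z) : JJ κ lam) < toLex (a', b0) := by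
      intro z
      rw [Prod.Lex.lt_iff]
      exact Or.inl (ha' _ rfl)
    have hchain : ∀ z z' : lam.ord.ToType, z < z' →
        p ∈ LeStar (Ee (Q := QQ κ lam) (toLex (e y, z))) (Ee (toLex (e y, z'))) := by
      intro z z' h
      have hq : QQ κ lam (toLex (e y, z)) (toLex (e y, z')) := ⟨le_refl (e y), h⟩
      exact leStar_of_Q (Q := QQ κ lam) (fun _ _ h => QQ_lt h) hq p
    have hmain : p ∈ AvoidsMiddles (Ee (Q := QQ κ lam) (toLex (a', b0)))
        (fun z : lam.ord.ToType => Ee (Q := QQ κ lam) (toLex (e y, z))) := by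
      refine ⟨fun z => not_leStar (hlt z) p, fun z z' => ?_⟩
      rcases lt_trichotomy z z' with h | h | h
      · exact forr_right (down_FinMid _ _ _) (finMid_of_leStar (hchain z z' h))
      · subst h
        exact forr_left (down_FinMid _ _ _) (finMid_of_leStar (leStar_refl (isFun_Ee _ p)))
      · exact forr_left (down_FinMid _ _ _) (finMid_of_leStar (hchain z' z h))
    exact mem_fex_of_mem (Ee (Q := QQ κ lam) (toLex (a', b0)))
      (down_fand (down_IsFun _) (down_AvoidsMiddles _ _)) ⟨isFun_Ee _ p, hmain⟩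

theorem not_covLe (hκ : κ.IsRegular) (hlam : lam.IsRegular) (hκ0 : ℵ₀ < κ) (hlam0 : ℵ₀ < lam)
    {μ : Cardinal.{0}} (hμ : μ < lam) (p : PP κ lam) : p ∈ fnot (CovLe (PP κ lam) μ.out) := by
  intro q _ hq
  obtain ⟨r, _, T, hT1, hT2⟩ := mem_fex.1 hq q le_rfl
  choose S hSc hS using fun y => cohen_avoids (Q := QQ κ lam) (T y)
  have hU : #(⋃ y, S y : Set (JJ κ lam)) < lam := by
    refine (mk_iUnion_le_sum_mk).trans_lt ?_
    refine ((Cardinal.sum_le_sum _ (fun _ => ℵ₀) fun y =>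
      le_aleph0_iff_set_countable.2 (hSc y))).trans_lt ?_
    rw [Cardinal.sum_const', mk_out]
    exact mul_lt_of_lt hlam0.le hμ hlam0
  obtain ⟨η, hη⟩ := exists_bound hlam ((fun x : JJ κ lam => (ofLex x).2) '' ⋃ y, S y)
    (mk_image_le.trans_lt hU)
  obtain ⟨a0, _⟩ := exists_bound hκ ∅ (by
    rw [mk_eq_zero]; exact aleph0_pos.trans hκ0)
  obtain ⟨r', hr', h'⟩ := mem_fimp.1 (hT2 (Cc (Q := QQ κ lam) (toLex (a0, η)))) r le_rfl
    (isFun_Cc (Q := QQ κ lam) _ r)
  obtain ⟨r'', hr'', y, h''⟩ := mem_fex.1 h' r' le_rfl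
  refine hS y ({x | (ofLex x).2 < η} : Set (JJ κ lam)) (fun x hx z hz => ?_) (fun x hx => ?_) (toLex (a0, η)) ?_
    (hT1 y) r'' (hr''.trans hr') h''
  · exact hz.2.trans hx
  · exact hη _ ⟨x, Set.mem_iUnion.2 ⟨y, hx⟩, rfl⟩
  · exact fun h => lt_irrefl η h

end

end Pool.Agent.Y575.MA
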